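import Pool.Agent.H33.EllOneDefs

set_option autoImplicit false

namespace Pool.Agent.Results.MP_c74d57_an.Q1

open Pool.Agent.H33.EllOne Real

def RS (a : ℕ → ℝ) : Prop := ∃ P D : Polynomial ℝ, D ≠ 0 ∧
  (D : PowerSeries ℝ) * PowerSeries.mk a = (P : PowerSeries ℝ)

lemma RS.add {a b : ℕ → ℝ} (ha : RS a) (hb : RS b) : RS fun k => a k + b k := by
  obtain ⟨P, D, h1, h2⟩ := ha
  obtain ⟨P', D', h1', h2'⟩ := hb
  refine ⟨P * D' + P' * D, D * D', mul_ne_zero h1 h1', ?_⟩
  have : PowerSeries.mk (fun k => a k + b k) = PowerSeries.mk a + PowerSeries.mk b := by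
    ext; simp
  rw [this]
  push_cast
  rw [← h2, ← h2']; ring

lemma RS.smul {a : ℕ → ℝ} (c : ℝ) (ha : RS a) : RS fun k => c * a k := by
  obtain ⟨P, D, h1, h2⟩ := ha
  refine ⟨Polynomial.C c * P, D, h1, ?_⟩
  have : PowerSeries.mk (fun k => c * a k) = PowerSeries.C c * PowerSeries.mk a := by
    ext; simp
  rw [this]
  push_cast
  rw [← h2]; ring

lemma RS.idx {a : ℕ → ℝ} (ha : RS a) : RS fun k => (k : ℝ) * a k := by
  obtain ⟨P, D, h1, h2⟩ := ha
  refine ⟨Polynomial.X * (P.derivative * D - P * D.derivative), D * D, mul_ne_zero h1 h1, ?_⟩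
  have : PowerSeries.mk (fun k => (k : ℝ) * a k) =
      PowerSeries.X * PowerSeries.derivative ℝ (PowerSeries.mk a) := by
    ext k
    cases k with
    | zero => simp
    | succ k => simp [PowerSeries.coeff_succ_X_mul, PowerSeries.coeff_derivative, mul_comm]
  have h3 := congrArg (PowerSeries.derivative ℝ) h2
  rw [Derivation.leibniz, PowerSeries.derivative_coe, PowerSeries.derivative_coe] at h3
  rw [this]
  push_cast
  rw [← h3, ← h2]
  simp only [smul_eq_mul]
  ring

lemma RS.rec2 (a : ℕ → ℝ) (c d : ℝ) (h : ∀ k, a (k + 2) = c * a (k + 1) + d * a k) : RS a := by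
  refine ⟨Polynomial.C (a 0) + Polynomial.C (a 1 - c * a 0) * Polynomial.X,
    1 - Polynomial.C c * Polynomial.X - Polynomial.C d * Polynomial.X ^ 2, fun h0 => ?_, ?_⟩
  · have := congrArg (fun p => Polynomial.coeff p 0) h0
    simp at this
  · push_cast
    ext k
    rw [sub_mul, sub_mul, one_mul, mul_assoc, mul_assoc, pow_two, mul_assoc]
    match k with
    | 0 => simp
    | 1 => simp [PowerSeries.coeff_succ_X_mul, PowerSeries.coeff_X]
    | k + 2 => simp [PowerSeries.coeff_succ_X_mul, PowerSeries.coeff_X, h, PowerSeries.coeff_C]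

noncomputable def y (k : ℕ) : ℝ := (1 / 2) ^ k
noncomputable def x (k : ℕ) : ℝ := y k * (1 - 2 * k * sin k ^ 2)
noncomputable def q (k : ℕ) : ℝ := max 0 (x k)

lemma y_pos (k : ℕ) : 0 < y k := by unfold y; positivity

lemma x_le (k : ℕ) : x k ≤ y k := by
  have : 0 ≤ y k * (2 * k * sin k ^ 2) := by have := y_pos k; positivity
  unfold x; linarith

lemma RS_y : RS y := RS.rec2 _ (1 / 2) 0 fun k => by unfold y; ring

lemma RS_x : RS x := by
  have h1 : RS fun k => y k * cos (2 * k) := RS.rec2 _ (cos 2) (-(1 / 4)) fun k => by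
    have e1 : cos (2 * ((k + 2 : ℕ) : ℝ)) = cos (2 * ((k + 1 : ℕ) : ℝ) + 2) := by
      congr 1; push_cast; ring
    have e2 : cos (2 * (k : ℝ)) = cos (2 * ((k + 1 : ℕ) : ℝ) - 2) := by
      congr 1; push_cast; ring
    rw [e1, e2, cos_add, cos_sub]
    unfold y; ring
  have h2 := RS_y.add ((RS_y.idx.smul (-1)).add h1.idx)
  convert h2 using 2 with k
  unfold x
  rw [cos_two_mul, cos_sq']
  ring

lemma sum_y : Summable y := summable_geometric_of_lt_one (by norm_num) (by norm_num)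

lemma sum_x : Summable fun k => |x k| := by
  have h1 : Summable fun k : ℕ => (k : ℝ) * (1 / 2) ^ k := by
    simpa using summable_pow_mul_geometric_of_norm_lt_one 1 (r := (1 / 2 : ℝ)) (by norm_num)
  refine Summable.of_nonneg_of_le (fun _ => abs_nonneg _) (fun k => ?_) (sum_y.add (h1.mul_left 2))
  have h2 := y_pos k
  have h3 : sin (k : ℝ) ^ 2 ≤ 1 := sin_sq_le_one _
  have h4 : 0 ≤ y k * (2 * k * sin k ^ 2) := by positivity
  have h5 : y k * (2 * k * sin k ^ 2) ≤ y k * (2 * k * 1) := by gcongr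
  have h6 : 0 ≤ y k * k := by positivity
  change |x k| ≤ y k + 2 * (k * y k)
  unfold x
  rw [abs_le]
  constructor <;> nlinarith

lemma sum_q : Summable fun k => |q k| := by
  refine Summable.of_nonneg_of_le (fun _ => abs_nonneg _) (fun k => ?_) sum_x
  unfold q
  rcases le_total 0 (x k) with h | h
  · rw [max_eq_right h]
  · rw [max_eq_left h]; simp

lemma sin_low (K : ℕ) : ∃ δ : ℝ, 0 < δ ∧ ∀ t : ℕ, 1 ≤ t → t ≤ K → δ ≤ |sin t| := by
  induction K with
  | zero => exact ⟨1, one_pos, fun t h1 h2 => by omega⟩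
  | succ K ih =>
    obtain ⟨δ, h1, h2⟩ := ih
    have h3 : sin ((K + 1 : ℕ) : ℝ) ≠ 0 := by
      intro h
      obtain ⟨n, hn⟩ := sin_eq_zero_iff.1 h
      have hn0 : n ≠ 0 := by
        rintro rfl
        have : (0 : ℝ) < ((K + 1 : ℕ) : ℝ) := by positivity
        simp at hn; linarith [hn, this]
      exact (irrational_pi.intCast_mul hn0).ne_nat _ hn
    refine ⟨min δ |sin ((K + 1 : ℕ) : ℝ)|, lt_min h1 (abs_pos.2 h3), fun t a b => ?_⟩
    rcases Nat.lt_or_ge K t with h | h
    · rw [show t = K + 1 by omega]; exact min_le_right _ _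
    · exact (min_le_left _ _).trans (h2 t a h)

lemma good (K : ℕ) : ∃ k : ℕ, K < k ∧ 2 * k * sin k ^ 2 < 1 := by
  obtain ⟨δ, h1, h2⟩ := sin_low K
  obtain ⟨n, hn⟩ := exists_nat_gt (max (4 / δ) 32)
  have hn1 : 4 / δ < n := (le_max_left _ _).trans_lt hn
  have hn2 : (32 : ℝ) < n := (le_max_right _ _).trans_lt hn
  have hn0 : 0 < n := by exact_mod_cast (show (0 : ℝ) < n by linarith)
  obtain ⟨k, hk0, hkn, hk⟩ := exists_nat_abs_mul_sub_round_le (1 / π) hn0
  have hp := pi_pos
  have h3 : |sin k| ≤ 4 / (n + 1) := by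
    have e : (k : ℝ) = (k * (1 / π) - round (k * (1 / π))) * π + round (k * (1 / π)) * π := by
      field_simp; ring
    rw [e, sin_add_int_mul_pi, abs_mul, abs_zpow, abs_neg, abs_one, one_zpow, one_mul]
    refine abs_sin_le_abs.trans ?_
    rw [abs_mul, abs_of_pos hp]
    calc _ ≤ 1 / ((n : ℝ) + 1) * 4 := mul_le_mul hk pi_le_four hp.le (by positivity)
      _ = _ := by ring
  have h4 : 4 / ((n : ℝ) + 1) < δ := by
    rw [div_lt_iff₀ h1] at hn1
    rw [div_lt_iff₀ (by positivity)]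
    nlinarith
  refine ⟨k, ?_, ?_⟩
  · by_contra hc
    have := h2 k hk0 (by omega)
    linarith
  · have h5 : sin (k : ℝ) ^ 2 ≤ (4 / ((n : ℝ) + 1)) ^ 2 := by
      rw [← sq_abs]; gcongr
    have h6 : (k : ℝ) ≤ n := by exact_mod_cast hkn
    calc 2 * k * sin (k : ℝ) ^ 2 ≤ 2 * n * (4 / ((n : ℝ) + 1)) ^ 2 := by gcongr
      _ < 1 := by
        rw [div_pow, ← mul_div_assoc, div_lt_one (by positivity)]
        nlinarith

lemma q_zero (k : ℕ) : q k = 0 ↔ ¬ 2 * k * sin k ^ 2 < 1 := by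
  unfold q x
  rw [max_eq_left_iff, ← not_lt, mul_pos_iff_of_pos_left (y_pos k), sub_pos]

lemma not_RS : ¬ RS q := by
  rintro ⟨P, D, h1, h2⟩
  obtain ⟨δ, hδ, hs⟩ := sin_low D.natDegree
  obtain ⟨N, hN⟩ := exists_nat_gt (2 / δ ^ 2)
  obtain ⟨k, hk, hg⟩ := good (N + D.natDegree + P.natDegree)
  have sm : ∀ j : ℕ, N ≤ j → 2 * j * sin j ^ 2 < 1 → |sin j| < δ / 2 := by
    intro j hj h
    refine abs_lt_of_sq_lt_sq ?_ (by positivity)
    have : (N : ℝ) ≤ j := by exact_mod_cast hj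
    rw [div_lt_iff₀ (by positivity)] at hN
    by_contra hc
    have h3 : (δ / 2) ^ 2 ≤ sin (j : ℝ) ^ 2 := not_lt.1 hc
    have h4 : 2 * N * (δ / 2) ^ 2 ≤ 2 * j * sin (j : ℝ) ^ 2 := by gcongr
    nlinarith
  have h3 := congrArg (PowerSeries.coeff (D.natTrailingDegree + k)) h2
  rw [Polynomial.coeff_coe, Polynomial.coeff_eq_zero_of_natDegree_lt (by omega),
    PowerSeries.coeff_mul, Finset.sum_eq_single (D.natTrailingDegree, k)] at h3
  · rw [Polynomial.coeff_coe, PowerSeries.coeff_mk] at h3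
    rcases mul_eq_zero.1 h3 with h | h
    · exact h1 (Polynomial.coeff_natTrailingDegree_eq_zero.1 h)
    · exact (q_zero k).1 h hg
  · rintro ⟨i, j⟩ hij hne
    have hij' : i + j = D.natTrailingDegree + k := Finset.HasAntidiagonal.mem_antidiagonal.1 hij
    rw [Polynomial.coeff_coe, PowerSeries.coeff_mk]
    rcases lt_trichotomy i D.natTrailingDegree with h | h | h
    · rw [Polynomial.coeff_eq_zero_of_lt_natTrailingDegree h, zero_mul]
    · exact absurd (Prod.ext h (by simp only; omega)) hne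
    · by_cases h4 : D.natDegree < i
      · rw [Polynomial.coeff_eq_zero_of_natDegree_lt h4, zero_mul]
      · rw [(q_zero j).2, mul_zero]
        intro hj
        have a1 := sm k (by omega) hg
        have a2 := sm j (by omega) hj
        have a3 := hs (k - j) (by omega) (by omega)
        rw [Nat.cast_sub (by omega), sin_sub] at a3
        have a4 : |sin (k : ℝ) * cos j| ≤ |sin (k : ℝ)| := by
          rw [abs_mul]; exact mul_le_of_le_one_right (abs_nonneg _) (abs_cos_le_one _)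
        have a5 : |cos (k : ℝ) * sin j| ≤ |sin (j : ℝ)| := by
          rw [abs_mul]; exact mul_le_of_le_one_left (abs_nonneg _) (abs_cos_le_one _)
        have a6 := abs_sub (sin (k : ℝ) * cos j) (cos (k : ℝ) * sin j)
        linarith
  · intro h; simp at h

noncomputable def dl (k : ℕ) : ℝ := if k = 0 then 1 else 0

noncomputable def H : Seq 1 3 := fun k => Matrix.of fun _ j => ![0, x k, y k] j
noncomputable def U : Seq 1 1 := fun k => Matrix.of fun _ _ => dl k
noncomputable def V : Seq 1 3 := fun k => Matrix.of fun _ _ => dl k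

lemma sum_dl : Summable fun k => |dl k| :=
  summable_of_ne_finset_zero (s := {0}) fun k hk => by simp [dl, Finset.notMem_singleton.1 hk]

lemma RS_dl : RS dl := ⟨1, 1, one_ne_zero, by
  ext k
  simp [dl, PowerSeries.coeff_one]⟩

lemma conv_eq (Q : Seq 1 1) (k : ℕ) (j : Fin 3) : conv (conv U Q) V k 0 j = Q k 0 0 := by
  have h1 : ∀ t, conv U Q t 0 0 = Q t 0 0 := by
    intro t
    simp only [conv, Matrix.sum_apply, Matrix.mul_apply, U, Matrix.of_apply, Fin.sum_univ_one]
    rw [Finset.sum_eq_single 0]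
    · simp [dl]
    · intro b _ hb; simp [dl, hb]
    · simp
  rw [conv]
  simp only [Matrix.sum_apply, Matrix.mul_apply, V, Matrix.of_apply, Fin.sum_univ_one, h1]
  rw [Finset.sum_eq_single k]
  · simp [dl]
  · intro b hb hb'
    have : k - b ≠ 0 := by have := Finset.mem_range.1 hb; omega
    simp [dl, this]
  · simp

noncomputable def ph (k : ℕ) (t : ℝ) : ℝ := |0 - t| + |x k - t| + |y k - t|

lemma cost (Q : Seq 1 1) (hQ : IsL1 Q) : Summable (fun k => ph k (Q k 0 0)) ∧
    nrm (H - conv (conv U Q) V) = ∑' k, ph k (Q k 0 0) := by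
  have s : ∀ a : ℕ → ℝ, Summable (fun k => |a k|) → Summable fun k => |a k - Q k 0 0| :=
    fun a ha => (ha.of_abs.sub (hQ 0 0).of_abs).abs
  have s0 := s (fun _ => 0) (by simpa using summable_zero)
  have s1 := s x sum_x
  have s2 := s y sum_y.abs
  refine ⟨(s0.add s1).add s2, ?_⟩
  unfold nrm ph
  rw [ciSup_unique, Fin.sum_univ_three, (s0.add s1).tsum_add s2, s0.tsum_add s1]
  simp [conv_eq, H]

lemma ph_le (k : ℕ) (t : ℝ) : ph k (q k) + |t - q k| ≤ ph k t := by
  have h1 := x_le k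
  have h2 := y_pos k
  unfold ph q
  rcases le_total 0 (x k) with h | h
  · rw [max_eq_right h]
    have a1 := le_abs_self (y k - t)
    have a2 := neg_abs_le (0 - t)
    rw [abs_of_nonpos (by linarith : 0 - x k ≤ 0), sub_self, abs_zero,
      abs_of_nonneg (by linarith : 0 ≤ y k - x k), abs_sub_comm t]
    linarith
  · rw [max_eq_left h]
    have a1 := le_abs_self (y k - t)
    have a2 := neg_abs_le (x k - t)
    rw [sub_self, abs_zero, abs_of_nonpos (by linarith : x k - 0 ≤ 0),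
      abs_of_nonneg (by linarith : 0 ≤ y k - 0), abs_sub_comm t]
    linarith

noncomputable def Q0 : Seq 1 1 := fun k => Matrix.of fun _ _ => q k

lemma Q0_l1 : IsL1 Q0 := fun _ _ => sum_q

theorem result : ∃ (nz nw nu ny : ℕ) (H : Seq nz nw) (U : Seq nz nu) (V : Seq ny nw),
    0 < nz ∧ 0 < nw ∧ 0 < nu ∧ 0 < ny ∧ IsL1 H ∧ IsL1 U ∧ IsL1 V ∧ IsRat H ∧ IsRat U ∧ IsRat V ∧
    ¬ (nrank U = nz ∧ nrank V = nw) ∧ (∃ Q : Seq nu ny, IsOptimal H U V Q) ∧
    ∀ Q : Seq nu ny, IsOptimal H U V Q → ¬ IsRat Q := by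
  refine ⟨1, 3, 1, 1, H, U, V, one_pos, by norm_num, one_pos, one_pos, ?_, fun _ _ => sum_dl,
    fun _ _ => sum_dl, ?_, fun _ _ => RS_dl, fun _ _ => RS_dl, ?_, ⟨Q0, Q0_l1, ?_⟩, ?_⟩
  · intro i j
    fin_cases j
    · simpa [H] using summable_zero
    · exact sum_x
    · exact sum_y.abs
  · intro i j
    fin_cases j
    · exact ⟨0, 1, one_ne_zero, by ext k; simp [H]⟩
    · exact RS_x
    · exact RS_y
  · rintro ⟨-, h⟩
    have : nrank V ≤ 1 := Matrix.rank_le_height _
    omega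
  · intro Q hQ
    rw [(cost Q hQ).2, (cost Q0 Q0_l1).2]
    refine Summable.tsum_le_tsum (fun k => ?_) (cost Q0 Q0_l1).1 (cost Q hQ).1
    have := ph_le k (Q k 0 0)
    have h2 := abs_nonneg (Q k 0 0 - q k)
    change ph k (q k) ≤ _
    linarith
  · rintro Q ⟨hQ, h⟩ hr
    have h1 := h Q0 Q0_l1
    rw [(cost Q hQ).2, (cost Q0 Q0_l1).2] at h1
    have h2 : (fun k => Q k 0 0) = q := by
      funext k
      by_contra hne
      refine absurd h1 (not_le.2 (Summable.tsum_lt_tsum (i := k) (fun k => ?_) ?_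
        (cost Q0 Q0_l1).1 (cost Q hQ).1))
      · have := ph_le k (Q k 0 0)
        have h2 := abs_nonneg (Q k 0 0 - q k)
        change ph k (q k) ≤ _
        linarith
      · have := ph_le k (Q k 0 0)
        have h2 := abs_pos.2 (sub_ne_zero.2 hne)
        change ph k (q k) < _
        linarith
    exact not_RS (h2 ▸ hr 0 0)

end Pool.Agent.Results.MP_c74d57_an.Q1
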